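import Pool.Agent.Y642.LZ.J

/-!
# Irreducible polynomials with about `√n (log n) ^ (1 / 4)` zeros in a fixed local field
-/

set_option autoImplicit false

namespace Pool.Agent.Q132.LC

open Polynomial ValuativeRel Pool.Agent.Y642.LZ

universe u

section tors

variable {A : Type u} [CommRing A] [IsDomain A] [CharZero A]

/-- an element of finite order congruent to one modulo `p ^ 2` is one -/
lemma eq_one_of_pow {p : ℕ} (hp : p.Prime) (hpu : ¬ IsUnit (p : A)) :
    ∀ m : ℕ, 1 ≤ m → ∀ u : A, (p : A) ^ 2 ∣ u - 1 → u ^ m = 1 → u = 1 := by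
  intro m
  induction m using Nat.strong_induction_on with
  | _ m ih =>
    intro hm u hu h1
    rcases eq_or_ne m 1 with h | h
    · rw [h, pow_one] at h1
      exact h1
    obtain ⟨l, hl, hlm⟩ := Nat.exists_prime_and_dvd h
    obtain ⟨m', rfl⟩ := hlm
    have hm' : 1 ≤ m' := by
      rcases Nat.eq_zero_or_pos m' with h0 | h0
      · rw [h0, mul_zero] at hm; omega
      · exact h0
    have hlt : m' < l * m' := by nlinarith [hl.two_le]
    set v := u ^ m' with hv
    have hv1 : (p : A) ^ 2 ∣ v - 1 := hu.trans (by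
      have := sub_dvd_pow_sub_pow u 1 m'
      rwa [one_pow] at this)
    have hvl : v ^ l = 1 := by rw [hv, ← pow_mul, mul_comm]; exact h1
    have hv2 : v = 1 := by
      by_contra hne
      have hsum : ∑ i ∈ Finset.range l, v ^ i = 0 := by
        have h2 := mul_geom_sum v l
        rw [hvl, sub_self] at h2
        rcases mul_eq_zero.mp h2 with h | h
        · exact absurd (sub_eq_zero.mp h) hne
        · exact h
      have hl2 : (p : A) ^ 2 ∣ (l : A) := by
        have h3 : (p : A) ^ 2 ∣ ∑ i ∈ Finset.range l, (v ^ i - 1) := by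
          refine Finset.dvd_sum fun i _ => hv1.trans ?_
          have := sub_dvd_pow_sub_pow v 1 i
          rwa [one_pow] at this
        rw [Finset.sum_sub_distrib, hsum, zero_sub, Finset.sum_const, Finset.card_range,
          nsmul_eq_mul, mul_one, dvd_neg] at h3
        exact h3
      have hg : Nat.gcd (p ^ 2) l ∣ p := by
        rcases eq_or_ne l p with h3 | h3
        · rw [h3]; exact Nat.gcd_dvd_right _ _
        · have h4 : Nat.Coprime (p ^ 2) l :=
            Nat.Coprime.pow_left 2 ((Nat.coprime_primes hp hl).2 (Ne.symm h3))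
          rw [Nat.Coprime.gcd_eq_one h4]
          exact one_dvd _
      have hg2 : (p : A) ^ 2 ∣ ((Nat.gcd (p ^ 2) l : ℕ) : A) := by
        have h3 := Nat.gcd_eq_gcd_ab (p ^ 2) l
        have h4 : ((Nat.gcd (p ^ 2) l : ℕ) : A) =
            (p : A) ^ 2 * ((Nat.gcdA (p ^ 2) l : ℤ) : A) + (l : A) * ((Nat.gcdB (p ^ 2) l : ℤ) : A) := by
          have h5 := congrArg (Int.cast : ℤ → A) h3
          push_cast at h5
          exact h5
        rw [h4]
        exact dvd_add (dvd_mul_right _ _) (hl2.mul_right _)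
      have hpp : (p : A) ^ 2 ∣ (p : A) := hg2.trans (Nat.cast_dvd_cast hg)
      obtain ⟨c, hc⟩ := hpp
      have hp0 : (p : A) ≠ 0 := Nat.cast_ne_zero.2 hp.ne_zero
      apply hpu
      refine IsUnit.of_mul_eq_one c ?_
      apply mul_left_cancel₀ hp0
      rw [mul_one]
      calc (p : A) * (p * c) = p ^ 2 * c := by ring
        _ = p := hc.symm
    exact ih m' hlt hm' u hu hv2

end tors

/-- among the units of a local field we find many which do not differ by roots of unity only -/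
lemma exists_ind (D : Place.{u}) : ∃ N : ℕ, 1 ≤ N ∧ ∀ Z : Finset D.K,
    (∀ x ∈ Z, x ≠ 0 ∧ x ∈ 𝒪[D.K] ∧ x⁻¹ ∈ 𝒪[D.K]) →
    ∃ Y : Finset D.K, Y ⊆ Z ∧ TorsionInd Y ∧ Z.card ≤ N * Y.card := by
  classical
  have hnu : ¬ IsUnit ((D.p : ℕ) : 𝒪[D.K]) := by
    intro h
    have h1 := D.toLoc.assoc.isUnit h
    exact D.toLoc.notUnit (isUnit_of_dvd_unit (dvd_pow_self _ (by have := D.he; exact Nat.one_le_iff_ne_zero.1 this)) h1)
  set I : Ideal 𝒪[D.K] := Ideal.span {((D.p : ℕ) : 𝒪[D.K]) ^ 2} with hI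
  have hfin : Finite (𝒪[D.K] ⧸ I) := by
    set π : 𝒪[D.K] := D.toLoc.π with hπ
    set J : Ideal 𝒪[D.K] := Ideal.span {π} with hJ
    have hJf : J.FG := ⟨{π}, by rw [Finset.coe_singleton]⟩
    have h1 : Finite (𝒪[D.K] ⧸ J) := D.toLoc.fin
    have h2 : Finite (𝒪[D.K] ⧸ J ^ (D.e * 2)) := Ideal.finite_quotient_pow hJf _
    have h3 : I = J ^ (D.e * 2) := by
      rw [hI, hJ, Ideal.span_singleton_pow, pow_mul]
      exact Ideal.span_singleton_eq_span_singleton.2 (D.toLoc.assoc.pow_pow)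
    rw [h3]
    exact h2
  have : Fintype (𝒪[D.K] ⧸ I) := Fintype.ofFinite _
  refine ⟨Fintype.card (𝒪[D.K] ⧸ I), Fintype.card_pos, fun Z hZ => ?_⟩
  let c : D.K → 𝒪[D.K] ⧸ I := fun x => if h : x ∈ 𝒪[D.K] then Ideal.Quotient.mk I ⟨x, h⟩ else 0
  obtain ⟨y, -, hy⟩ := Finset.exists_max_image (Finset.univ : Finset (𝒪[D.K] ⧸ I))
    (fun y => (Z.filter (fun x => c x = y)).card) ⟨0, Finset.mem_univ _⟩
  refine ⟨Z.filter (fun x => c x = y), Finset.filter_subset _ _, ?_, ?_⟩
  · intro x hx z hz m hm hxz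
    rw [Finset.mem_filter] at hx hz
    obtain ⟨hx0, hx1, hx2⟩ := hZ x hx.1
    obtain ⟨hz0, hz1, hz2⟩ := hZ z hz.1
    have h1 : c x = c z := hx.2.trans hz.2.symm
    simp only [c, dif_pos hx1, dif_pos hz1] at h1
    rw [Ideal.Quotient.eq, hI, Ideal.mem_span_singleton] at h1
    set zi : 𝒪[D.K] := ⟨z⁻¹, hz2⟩ with hzi
    have h2 : (⟨z, hz1⟩ : 𝒪[D.K]) * zi = 1 := by
      apply Subtype.ext
      show z * z⁻¹ = 1
      exact mul_inv_cancel₀ hz0
    have h3 := eq_one_of_pow D.hp hnu m hm ((⟨x, hx1⟩ : 𝒪[D.K]) * zi) (by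
      have h4 : (⟨x, hx1⟩ : 𝒪[D.K]) * zi - 1 = (⟨x, hx1⟩ - ⟨z, hz1⟩) * zi := by
        rw [sub_mul, h2]
      rw [h4]
      exact h1.mul_right _) (by
      apply Subtype.ext
      show (x * z⁻¹) ^ m = 1
      rw [mul_pow, hxz, ← mul_pow, mul_inv_cancel₀ hz0, one_pow])
    have h4 := congrArg Subtype.val h3
    have h5 : x * z⁻¹ = 1 := h4
    exact (mul_inv_eq_one₀ hz0).1 h5
  · rw [Finset.card_eq_sum_card_fiberwise (f := c) (t := Finset.univ) (fun x _ => Finset.mem_coe.2 (Finset.mem_univ _))]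
    refine (Finset.sum_le_card_nsmul _ _ _ (fun z hz => hy z hz)).trans ?_
    rw [smul_eq_mul, Finset.card_univ]

/-- the choice of the number of powers -/
lemma choose_k {δ b : ℝ} (hδ : 0 < δ) (hb : 0 ≤ b) : ∃ c : ℝ, 0 < c ∧ ∀ (L Λ : ℝ), 1 ≤ L →
    (∀ k : ℕ, 1 ≤ k → k * (δ * √L) ≤ b + 1 + L + Real.log k + 3 * k ^ 2 * Λ) → c ≤ Λ := by
  obtain ⟨A, hA1, hA⟩ : ∃ A : ℝ, 1 ≤ A ∧ b + 4 + Real.log (2 * A) ≤ A * δ := by
    -- log (2A) ≤ (δ/2) A + C
    refine ⟨max 1 ((b + 4 + Real.log (4 / δ)) / (δ / 2)), le_max_left _ _, ?_⟩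
    set A := max 1 ((b + 4 + Real.log (4 / δ)) / (δ / 2)) with hA
    have h1 : (b + 4 + Real.log (4 / δ)) / (δ / 2) ≤ A := le_max_right _ _
    have hA1 : 1 ≤ A := le_max_left _ _
    rw [div_le_iff₀ (by positivity)] at h1
    have h2 : Real.log (2 * A) ≤ Real.log (4 / δ) + A * (δ / 2) - 1 := by
      have h3 : 2 * A = (4 / δ) * (A * (δ / 2)) := by field_simp; ring
      rw [h3, Real.log_mul (by positivity) (by positivity)]
      have h4 := Real.log_le_sub_one_of_pos (show 0 < A * (δ / 2) by positivity)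
      linarith
    linarith
  refine ⟨1 / (12 * A ^ 2), by positivity, fun L Λ hL h => ?_⟩
  have hsL : 1 ≤ √L := by rw [Real.one_le_sqrt]; exact hL
  have hL2 : √L * √L = L := Real.mul_self_sqrt (by linarith)
  set k : ℕ := ⌈A * √L⌉₊ with hk
  have hAL : 1 ≤ A * √L := by nlinarith
  have hk1 : A * √L ≤ k := Nat.le_ceil _
  have hk2 : (k : ℝ) ≤ 2 * (A * √L) := by
    have := (Nat.ceil_lt_add_one (show 0 ≤ A * √L by positivity)).le
    linarith
  have hk3 : 1 ≤ k := by
    have : (1 : ℝ) ≤ k := hAL.trans hk1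
    exact_mod_cast this
  have hk0 : (0 : ℝ) < k := by linarith
  have h1 := h k hk3
  have h2 : Real.log k ≤ Real.log (2 * A) + L := by
    have h3 : Real.log k ≤ Real.log (2 * A * √L) := by
      apply Real.log_le_log hk0
      linarith
    rw [Real.log_mul (by positivity) (by positivity)] at h3
    have h4 := Real.log_le_sub_one_of_pos (show 0 < √L by positivity)
    nlinarith
  have h3 : A * δ * L ≤ k * (δ * √L) := by
    have : A * δ * L = (A * √L) * (δ * √L) := by
      rw [show (A * √L) * (δ * √L) = A * δ * (√L * √L) by ring, hL2]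
    rw [this]
    exact mul_le_mul_of_nonneg_right hk1 (by positivity)
  have h4 : (b + 4 + Real.log (2 * A)) * L ≤ A * δ * L := mul_le_mul_of_nonneg_right hA (by linarith)
  have hlog : 0 ≤ Real.log (2 * A) := Real.log_nonneg (by linarith)
  have h5 : L ≤ 3 * k ^ 2 * Λ := by nlinarith
  have hk4 : (k : ℝ) ^ 2 ≤ 4 * A ^ 2 * L := by
    calc (k : ℝ) ^ 2 ≤ (2 * (A * √L)) ^ 2 := pow_le_pow_left₀ hk0.le hk2 2
      _ = 4 * A ^ 2 * (√L * √L) := by ring
      _ = 4 * A ^ 2 * L := by rw [hL2]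
  have hΛ : 0 < Λ := by
    by_contra hcon
    push Not at hcon
    have : 3 * (k : ℝ) ^ 2 * Λ ≤ 0 := mul_nonpos_of_nonneg_of_nonpos (by positivity) hcon
    linarith
  have h6 : L ≤ 12 * A ^ 2 * L * Λ := by
    calc L ≤ 3 * k ^ 2 * Λ := h5
      _ ≤ 3 * (4 * A ^ 2 * L) * Λ := by gcongr
      _ = 12 * A ^ 2 * L * Λ := by ring
  rw [div_le_iff₀ (by positivity)]
  have h7 : 1 * L ≤ (Λ * (12 * A ^ 2)) * L := by linarith
  exact le_of_mul_le_mul_right h7 (by linarith)

/-- **Polynomials with about `√n (log n) ^ (1 / 4)` zeros in a fixed local field.** -/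
theorem lehmer_local (D : Place.{u}) {δ : ℝ} (hδ : 0 < δ) : ∃ c : ℝ, 0 < c ∧ ∀ f : ℤ[X],
    Irreducible f → 1 < (f.map (Int.castRingHom ℂ)).mahlerMeasure →
    ∀ Z : Finset D.K, (∀ x ∈ Z, aeval x f = 0) →
    δ * (f.natDegree * √(1 + Real.log f.natDegree)) ≤ (Z.card : ℝ) ^ 2 →
    c ≤ Real.log (f.map (Int.castRingHom ℂ)).mahlerMeasure := by
  classical
  obtain ⟨N, hN, hind⟩ := exists_ind D
  have hN0 : (0 : ℝ) < N := by exact_mod_cast hN
  have hq : 2 ≤ D.q := by rw [← Place.toLoc_q]; exact D.toLoc.two_le_q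
  have hq1 : (0 : ℝ) < (D.q : ℝ) - 1 := by
    have : (2 : ℝ) ≤ D.q := by exact_mod_cast hq
    linarith
  have he : (0 : ℝ) < D.e := by exact_mod_cast D.he
  have hlp : 0 < Real.log D.p := Real.log_pos (by exact_mod_cast D.hp.one_lt)
  set a : ℝ := Real.log D.p / (D.e * ((D.q : ℝ) - 1)) with ha
  have ha0 : 0 < a := by positivity
  set b : ℝ := Real.log D.p / D.e with hb
  have hb0 : 0 < b := by positivity
  obtain ⟨c, hc, hck⟩ := choose_k (δ := δ / N ^ 2 * a) (b := b) (by positivity) hb0.le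
  refine ⟨min c (Real.log 2), lt_min hc (Real.log_pos one_lt_two), ?_⟩
  intro f hf hM Z hZ hcard
  set M := (f.map (Int.castRingHom ℂ)).mahlerMeasure with hMdef
  rcases le_or_gt 2 M with h2 | h2
  · exact (min_le_right _ _).trans (Real.log_le_log two_pos h2)
  refine (min_le_left _ _).trans ?_
  obtain ⟨hlc, h0c⟩ := Pool.Agent.H389R3.LP.units_of_lt_two f hf hM h2
  have hdeg : f.natDegree ≠ 0 := by
    intro h
    rw [natDegree_eq_zero] at h
    obtain ⟨z, rfl⟩ := h
    rw [leadingCoeff_C] at hlc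
    rw [hMdef, Polynomial.map_C, mahlerMeasure_const, eq_intCast, Complex.norm_intCast] at hM
    have h3 : |(z : ℝ)| = 1 := by exact_mod_cast hlc
    rw [h3] at hM
    exact lt_irrefl _ hM
  -- the zeros are units
  have hunits : ∀ x ∈ Z, x ≠ 0 ∧ x ∈ 𝒪[D.K] ∧ x⁻¹ ∈ 𝒪[D.K] := by
    intro x hx
    have hx1 := mem_of_zero hlc (hZ x hx)
    have hx0 : x ≠ 0 := by
      rintro rfl
      have h3 := hZ 0 hx
      rw [aeval_def, eval₂_at_zero] at h3
      have h4 : f.coeff 0 = 0 := by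
        have : ((f.coeff 0 : ℤ) : D.K) = 0 := by simpa using h3
        exact_mod_cast this
      rw [h4] at h0c
      simp at h0c
    refine ⟨hx0, hx1, ?_⟩
    have h3 : x * aeval x f.divX + ((f.coeff 0 : ℤ) : D.K) = 0 := by
      have h4 := congrArg (aeval x) (Polynomial.divX_mul_X_add f)
      rw [hZ x hx, map_add, map_mul, aeval_X, aeval_C, mul_comm] at h4
      simpa using h4
    have h5 : ((f.coeff 0 : ℤ) : D.K) * ((f.coeff 0 : ℤ) : D.K) = 1 := by
      have h6 : f.coeff 0 * f.coeff 0 = 1 := by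
        rw [← abs_mul_abs_self, h0c, mul_one]
      rw [← Int.cast_mul, h6, Int.cast_one]
    have h7 : x⁻¹ = -((f.coeff 0 : ℤ) : D.K) * aeval x f.divX := by
      apply inv_eq_of_mul_eq_one_right
      linear_combination (-((f.coeff 0 : ℤ) : D.K)) * h3 + h5
    rw [h7]
    refine mul_mem (neg_mem (intCast_mem _ _)) ?_
    have h8 := aeval_sub (f := f.divX) (⟨x, hx1⟩ : 𝒪[D.K])
    have h9 : aeval x f.divX = ((aeval (⟨x, hx1⟩ : 𝒪[D.K]) f.divX : 𝒪[D.K]) : D.K) := h8
    rw [h9]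
    exact Subtype.mem _
  obtain ⟨Y, hYZ, hYt, hYc⟩ := hind Z hunits
  have hn1 : (1 : ℝ) ≤ f.natDegree := by exact_mod_cast Nat.one_le_iff_ne_zero.2 hdeg
  have hn0 : (0 : ℝ) < f.natDegree := by linarith
  apply hck (1 + Real.log f.natDegree) (Real.log M)
  · have := Real.log_nonneg hn1
    linarith
  intro k hk
  have hk1 : (1 : ℝ) ≤ k := by exact_mod_cast hk
  have h := place_all f hf hM h2 (Finset.univ : Finset Unit) (fun _ => D)
    (fun _ _ _ _ _ => rfl) (fun _ => Y) (fun _ _ x hx => hZ x (hYZ hx)) (fun _ _ => hYt) k hk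
  unfold placeSq placeLin at h
  rw [Finset.univ_unique, Finset.sum_singleton, Finset.sum_singleton] at h
  have hYn : (Y.card : ℝ) ≤ f.natDegree := by
    have hf0 : f.map (algebraMap ℤ D.K) ≠ 0 := by
      rw [Polynomial.map_ne_zero_iff (algebraMap ℤ D.K).injective_int]
      exact hf.ne_zero
    have h3 : Y.card ≤ (f.map (algebraMap ℤ D.K)).natDegree := by
      refine Polynomial.card_le_degree_of_subset_roots (p := f.map (algebraMap ℤ D.K)) ?_
      intro x hx
      rw [Polynomial.mem_roots hf0, IsRoot.def, eval_map_algebraMap]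
      exact hZ x (hYZ hx)
    rw [natDegree_map_eq_of_injective (algebraMap ℤ D.K).injective_int] at h3
    exact_mod_cast h3
  have hY2 : δ / N ^ 2 * (f.natDegree * √(1 + Real.log f.natDegree)) ≤ (Y.card : ℝ) ^ 2 := by
    have h3 : (Z.card : ℝ) ^ 2 ≤ N ^ 2 * (Y.card : ℝ) ^ 2 := by
      rw [← mul_pow]
      apply pow_le_pow_left₀ (by positivity)
      exact_mod_cast hYc
    rw [div_mul_eq_mul_div, div_le_iff₀ (by positivity)]
    linarith
  have h4 : (k : ℝ) * ((δ / N ^ 2 * a) * √(1 + Real.log f.natDegree)) * f.natDegree ≤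
      (b + 1 + (1 + Real.log f.natDegree) + Real.log k + 3 * k ^ 2 * Real.log M) *
        f.natDegree := by
    have h5 : (Y.card : ℝ) * Real.log D.p / D.e = Y.card * b := by rw [hb]; ring
    have h6 : (Y.card : ℝ) ^ 2 * Real.log D.p / (D.e * ((D.q : ℝ) - 1)) = Y.card ^ 2 * a := by
      rw [ha]; ring
    rw [h5, h6, Real.log_mul hn0.ne' (by positivity)] at h
    have h7 : (k : ℝ) * (δ / N ^ 2 * (f.natDegree * √(1 + Real.log f.natDegree)) * a) ≤
        k * (Y.card ^ 2 * a) := by gcongr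
    have h8 : (0 : ℝ) ≤ k * ((realZeros f : ℝ) ^ 2 / 96) := by positivity
    have h9 : (Y.card : ℝ) * b ≤ f.natDegree * b := by gcongr
    nlinarith
  exact le_of_mul_le_mul_right h4 hn0

end Pool.Agent.Q132.LC
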